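import Pool.Agent.GT.StmtsD

/-!
# D_FEX: the value of an additive function
-/

set_option autoImplicit false

namespace Pool.Agent.GT.D.H69

open Pool.Agent.GT Pool.Agent.GT.D

variable {ι : Type} [Fintype ι] [DecidableEq ι]

theorem mem_S (a : Fin 3 → ℤ) (q : ℕ) (h : q ∈ S0 a ∪ S1 a) :
    q.Prime ∧ q ≠ 2 ∧ ∃ i, (q : ℤ) ∣ a i := by
  have h1 : q ∈ (a 0 * a 1 * a 2).natAbs.primeFactors ∧ q ≠ 2 := by
    rcases Finset.mem_union.1 h with h | h
    · unfold S0 at h
      rw [Finset.mem_filter] at h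
      exact ⟨h.1, h.2.1⟩
    · unfold S1 at h
      rw [Finset.mem_filter] at h
      exact ⟨h.1, h.2.1⟩
  have hq : q.Prime := Nat.prime_of_mem_primeFactors h1.1
  refine ⟨hq, h1.2, ?_⟩
  have h2 : q ∣ (a 0 * a 1 * a 2).natAbs := Nat.dvd_of_mem_primeFactors h1.1
  have h3 : (q : ℤ) ∣ a 0 * a 1 * a 2 := Int.natCast_dvd.2 h2
  have hp : Prime (q : ℤ) := Nat.prime_iff_prime_int.1 hq
  rcases hp.dvd_or_dvd h3 with h4 | h4
  · rcases hp.dvd_or_dvd h4 with h5 | h5
    · exact ⟨0, h5⟩
    · exact ⟨1, h5⟩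
  · exact ⟨2, h4⟩

theorem fin3 : ∀ b i : Fin 3, ¬ b = i → i = b + 1 ∨ i = b + 2 := by decide

theorem fex (hExp : ExpStmt) (hLoc : LocStmt (ι := ι)) : FexStmt (ι := ι) := by
  intro a s r bl m st p h hk x w hT hr f hf i
  obtain ⟨h1, h2, h3, h4⟩ := hLoc a s r bl m st p h hk x w hT
  have hpr := hk.cho.pr
  set X := Xc (re a s r bl m st p) x w with hX
  have hd12 : Disjoint (S0 a) (S1 a) := by
    rw [Finset.disjoint_left]
    intro q hq hq'
    unfold S0 at hq
    unfold S1 at hq'
    rw [Finset.mem_filter] at hq hq'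
    have e := hq.2.2.symm.trans hq'.2.2
    exact absurd e (by decide)
  have hdr : r ∉ S0 a ∪ S1 a := fun h' => by
    obtain ⟨-, -, j, hj⟩ := mem_S a r h'
    exact hk.cho.nd j hj
  have hd2 : 2 ∉ S0 a ∪ S1 a := fun h' => (mem_S a 2 h').2.1 rfl
  have hp2 : ∀ l, p l ≠ 2 := fun l e => by
    have := hk.new.m8 l
    rw [e] at this
    norm_num at this
  have hpS : ∀ l, p l ∉ S0 a ∪ S1 a := fun l h' => by
    obtain ⟨-, -, j, hj⟩ := mem_S a (p l) h'
    exact hk.new.nd l j hj
  have hdS : Disjoint (S0 a ∪ S1 a) (Finset.univ.image p) := by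
    rw [Finset.disjoint_left]
    intro q hq hq'
    obtain ⟨l, -, rfl⟩ := Finset.mem_image.1 hq'
    exact hpS l hq
  have hr' : r ∉ (S0 a ∪ S1 a) ∪ Finset.univ.image p := fun h' => by
    rcases Finset.mem_union.1 h' with h' | h'
    · exact hdr h'
    · obtain ⟨l, -, e⟩ := Finset.mem_image.1 h'
      exact hk.new.nr l e
  have h2' : 2 ∉ insert r ((S0 a ∪ S1 a) ∪ Finset.univ.image p) := fun h' => by
    rcases Finset.mem_insert.1 h' with h' | h'
    · exact hk.cho.r2 h'.symm
    · rcases Finset.mem_union.1 h' with h' | h'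
      · exact hd2 h'
      · obtain ⟨l, -, e⟩ := Finset.mem_image.1 h'
        exact hp2 l e
  have hE := hExp f hf (X i) (hT.ne i)
    (insert 2 (insert r ((S0 a ∪ S1 a) ∪ Finset.univ.image p))) (by
      intro q hq
      rcases Finset.mem_insert.1 hq with rfl | hq
      · exact Nat.prime_two
      · rcases Finset.mem_insert.1 hq with rfl | hq
        · exact hpr
        · rcases Finset.mem_union.1 hq with hq | hq
          · exact (mem_S a q hq).1
          · obtain ⟨l, -, rfl⟩ := Finset.mem_image.1 hq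
            exact hk.new.pr l) (by
      intro q hq hn
      refine h3 q hq (fun e => hn ?_) (fun e => hn ?_) (fun e => hn ?_) (fun l e => hn ?_) i
      · rw [e]; exact Finset.mem_insert_self _ _
      · rw [e]; exact Finset.mem_insert_of_mem (Finset.mem_insert_self _ _)
      · exact Finset.mem_insert_of_mem (Finset.mem_insert_of_mem (Finset.mem_union_left _ e))
      · rw [e]
        exact Finset.mem_insert_of_mem (Finset.mem_insert_of_mem (Finset.mem_union_right _
          (Finset.mem_image_of_mem _ (Finset.mem_univ l)))))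
  rw [hE, Finset.sum_insert h2', Finset.sum_insert hr', Finset.sum_union hdS,
    Finset.sum_union hd12, Finset.sum_image (fun l _ l' _ e => hk.new.inj e), hr i, zero_mul,
    zero_add, Finset.sum_eq_zero (fun q hq => by rw [h2 q hq i, zero_mul]), zero_add, h4 i]
  have hS : ∑ q ∈ S1 a, vl q (X i) * f q =
      ∑ q ∈ S1 a, (if bq a q = i then 0 else vl q (X (bq a q + 1))) * f q := by
    refine Finset.sum_congr rfl fun q hq => ?_
    obtain ⟨e1, e2, -⟩ := h1 q hq
    congr 1
    by_cases hi : bq a q = i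
    · rw [if_pos hi, ← hi]
      exact e1
    · rw [if_neg hi]
      have hc : i = bq a q + 1 ∨ i = bq a q + 2 := fin3 _ _ hi
      rcases hc with hc | hc
      · rw [hc]
      · rw [hc]
        exact e2
  rw [hS]
  unfold Fm
  push_cast
  ring

end Pool.Agent.GT.D.H69
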